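import Pool.Agent.Helper597_mosct.MoserC
import Pool.Agent.Helper597_mos.Pair

/-!
# Centred means of compactly supported symplectomorphisms
-/

set_option autoImplicit false
set_option linter.unusedSectionVars false

open Set Filter Topology MeasureTheory
open scoped ContDiff NNReal

noncomputable section

namespace Pool.Agent.Helper597_mosct

open Pool.Agent.Helper597_torsymp Pool.Agent.Helper597_mos

variable {n : ℕ} {R : ℝ}

/-- the centre of the cube -/
def ctr : V n := fun _ => 1 / 2

theorem continuous_sub_ctr : Continuous fun y : V n => y - ctr :=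
  continuous_id.sub continuous_const

theorem integral_sub_ctr : ∫ y in Icc (0 : V n) 1, (y - ctr : V n) = 0 := by
  set m : V n := ∫ y in Icc (0 : V n) 1, (y - ctr : V n) with hm
  funext α
  have h1 : m α = ∫ y in Icc (0 : V n) 1, (y α - 1 / 2) :=
    ((ContinuousLinearMap.proj (R := ℝ) (φ := fun _ : Fin n ⊕ Fin n => ℝ) α).integral_comp_comm
      (integrable_cube continuous_sub_ctr)).symm
  rw [h1]
  have h2 := integral_coord (n := n) (f := fun t => t - 1 / 2) (by fun_prop) α
  rw [h2, intervalIntegral.integral_sub (Continuous.intervalIntegrable (by fun_prop) _ _)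
    (Continuous.intervalIntegrable (by fun_prop) _ _), integral_id]
  simp

/-- the centred means of a map -/
def cavg (F : V n → V n) (T : ℝ → V n →L[ℝ] V n) (p : ℝ × V n) : V n :=
  avg F T (p.1, p.2 - T p.1 ctr)

variable {F : V n → V n} {T : ℝ → V n →L[ℝ] V n}

theorem cavg_contDiff (hF : ContDiff ℝ ∞ F) (hT : ContDiff ℝ ∞ T) :
    ContDiff ℝ ∞ (cavg F T) := by
  have h1 : ContDiff ℝ ∞ fun p : ℝ × V n => T p.1 := hT.comp contDiff_fst
  exact (avg_contDiff hF hT).comp (contDiff_fst.prodMk (contDiff_snd.sub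
    (h1.clm_apply contDiff_const)))

theorem cavg_hasFDerivAt (hF : ContDiff ℝ ∞ F) (s : ℝ) (x : V n) :
    HasFDerivAt (fun x => cavg F T (s, x)) (mean F (T s) (x - T s ctr)) x := by
  have h1 := avg_hasFDerivAt (T := T) hF s (x - T s ctr)
  have h2 : HasFDerivAt (fun x : V n => x - T s ctr) (ContinuousLinearMap.id ℝ (V n)) x :=
    (hasFDerivAt_id x).sub_const _
  exact h1.comp x h2

theorem cavg_zero (h0 : T 0 = 0) (x : V n) : cavg F T (0, x) = F x := by
  unfold cavg
  simp only
  rw [h0, avg_zero h0]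
  simp

theorem cavg_supp (hs : ∀ x, R < ‖x‖ → F x = x) {B : ℝ} {s : ℝ} (hB : ‖T s‖ ≤ B) {x : V n}
    (hx : R + B < ‖x‖) : cavg F T (s, x) = x := by
  unfold cavg avg
  simp only
  have h1 : ∀ y ∈ Icc (0 : V n) 1, F (x - T s ctr + T s y) = x + T s (y - ctr) := by
    intro y hy
    have e : x - T s ctr + T s y = x + T s (y - ctr) := by
      rw [map_sub]
      abel
    rw [e]
    refine hs _ ?_
    have h2 : ‖y - ctr‖ ≤ 1 := by
      rw [pi_norm_le_iff_of_nonneg zero_le_one]
      intro i
      have h3 := hy.1 i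
      have h4 := hy.2 i
      simp only [Pi.zero_apply, Pi.one_apply, Pi.sub_apply, ctr] at *
      rw [Real.norm_eq_abs, abs_le]
      constructor <;> linarith
    have h5 : ‖T s (y - ctr)‖ ≤ B := by
      calc ‖T s (y - ctr)‖ ≤ ‖T s‖ * ‖y - ctr‖ := (T s).le_opNorm _
        _ ≤ B * 1 := mul_le_mul hB h2 (norm_nonneg _) ((norm_nonneg _).trans hB)
        _ = B := mul_one B
    have h6 := norm_sub_le (x + T s (y - ctr)) (T s (y - ctr))
    rw [add_sub_cancel_right] at h6
    linarith
  rw [setIntegral_congr_fun measurableSet_Icc h1]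
  have hc : Continuous fun y : V n => T s (y - ctr) :=
    (T s).continuous.comp (continuous_id.sub continuous_const)
  rw [integral_cube_add continuous_const hc, integral_cube_const,
    (T s).integral_comp_comm (integrable_cube continuous_sub_ctr),
    integral_sub_ctr, map_zero, add_zero]

/-- **Comparison of two compactly supported symplectomorphisms** in terms of the means of their
derivatives. -/
theorem isotopicIn_of_means_pair {G : V n → V n} (hF : IsSympIn (Metric.closedBall 0 R) F)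
    (hG : IsSympIn (Metric.closedBall 0 R) G)
    (hT : ContDiff ℝ ∞ T) (h0 : T 0 = 0)
    (hgF : ∀ s ∈ Icc (0 : ℝ) 1, ∀ x, Good (mean F (T s) x))
    (hgG : ∀ s ∈ Icc (0 : ℝ) 1, ∀ x, Good (mean G (T s) x))
    (hFG : ∀ t ∈ Icc (0 : ℝ) 1, ∀ x, Good ((1 - t) • mean F (T 1) x + t • mean G (T 1) x)) :
    ∃ R' : ℝ, IsotopicIn (Metric.closedBall 0 R') F G := by
  obtain ⟨B, hB⟩ := (isCompact_Icc (a := (0 : ℝ)) (b := 1)).exists_bound_of_continuousOn
    hT.continuous.continuousOn
  have hB0 : 0 ≤ B := (norm_nonneg _).trans (hB 0 ⟨le_rfl, zero_le_one⟩)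
  have hsF : ∀ x, R < ‖x‖ → F x = x := fun x hx => hF.support x (by simpa using hx)
  have hsG : ∀ x, R < ‖x‖ → G x = x := fun x hx => hG.support x (by simpa using hx)
  have hmono : Metric.closedBall (0 : V n) R ⊆ Metric.closedBall 0 (R + B) :=
    Metric.closedBall_subset_closedBall (by linarith)
  set Φ : ℝ × V n → V n := fun p =>
    (1 - ta p.1) • cavg F T (sg p.1, p.2) + ta p.1 • cavg G T (sg p.1, p.2) with hΦ
  have hs : ContDiff ℝ ∞ fun p : ℝ × V n => ((sg p.1, p.2) : ℝ × V n) :=
    (sg_contDiff.comp contDiff_fst).prodMk contDiff_snd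
  have ht : ContDiff ℝ ∞ fun p : ℝ × V n => ta p.1 := ta_contDiff.comp contDiff_fst
  have hΦs : ContDiff ℝ ∞ Φ :=
    ((contDiff_const.sub ht).smul ((cavg_contDiff hF.smooth hT).comp hs)).add
      (ht.smul ((cavg_contDiff hG.smooth hT).comp hs))
  have hdx : ∀ r x, dx Φ (r, x) = (1 - ta r) • mean F (T (sg r)) (x - T (sg r) ctr) +
      ta r • mean G (T (sg r)) (x - T (sg r) ctr) := by
    intro r x
    have h1 : HasFDerivAt (fun x => Φ (r, x)) ((1 - ta r) • mean F (T (sg r)) (x - T (sg r) ctr) +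
        ta r • mean G (T (sg r)) (x - T (sg r) ctr)) x :=
      ((cavg_hasFDerivAt hF.smooth (sg r) x).const_smul (1 - ta r)).add
        ((cavg_hasFDerivAt hG.smooth (sg r) x).const_smul (ta r))
    exact (hasFDerivAt_slice (hΦs.differentiable (by simp)) r x).unique h1
  have e0 : (fun x => Φ (0, x)) = F := by
    funext x
    simp only [hΦ, ta_zero, sg_zero, cavg_zero h0]
    simp
  have e1 : (fun x => Φ (1, x)) = G := by
    funext x
    simp only [hΦ, ta_one, sg_one, cavg_zero h0]
    simp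
  refine ⟨R + B, ?_⟩
  have h2 : IsotopicIn (Metric.closedBall 0 (R + B)) (fun x => Φ (0, x)) (fun x => Φ (1, x)) := by
    refine isotopicIn_of_nondegenerate hΦs ?_ ?_ (by rw [e0]; exact hF.mono hmono)
      (by rw [e1]; exact hG.mono hmono)
    · intro r _ x hx
      simp only [hΦ]
      rw [cavg_supp hsF (hB _ (sg_mem r)) hx, cavg_supp hsG (hB _ (sg_mem r)) hx, ← add_smul,
        sub_add_cancel, one_smul]
    · intro r _ ρ hρ x u hu
      have hu' : ∀ v, (1 - ρ) * om u v + ρ * om (((1 - ta r) • mean F (T (sg r))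
          (x - T (sg r) ctr) + ta r • mean G (T (sg r)) (x - T (sg r) ctr)) u)
          (((1 - ta r) • mean F (T (sg r)) (x - T (sg r) ctr) +
          ta r • mean G (T (sg r)) (x - T (sg r) ctr)) v) = 0 := by
        intro v
        have h3 := hu v
        simp only [hdx] at h3
        exact h3
      rcases sg_ta r with h | h | h
      · rw [h, sub_zero, one_smul, zero_smul, add_zero] at hu'
        exact hgF _ (sg_mem r) _ ρ hρ u hu'
      · rw [h, sub_self, one_smul, zero_smul, zero_add] at hu'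
        exact hgG _ (sg_mem r) _ ρ hρ u hu'
      · rw [h] at hu'
        exact hFG _ (ta_mem r) _ ρ hρ u hu'
  rwa [e0, e1] at h2

/-! ### Shrinking the support -/

/-- the conjugate of a map by a homothety -/
def shr (c : ℝ) (F : V n → V n) (x : V n) : V n := c⁻¹ • F (c • x)

theorem shr_isSympIn {K L : Set (V n)} (hF : IsSympIn K F) {c : ℝ} (hc : c ≠ 0)
    (hKL : ∀ x, c • x ∈ K → x ∈ L) : IsSympIn L (shr c F) := by
  obtain ⟨H, hH, hl, hr⟩ := hF.inverse
  refine ⟨(hF.smooth.comp (contDiff_const_smul c)).const_smul c⁻¹,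
    ⟨shr c H, (hH.comp (contDiff_const_smul c)).const_smul c⁻¹, fun x => ?_, fun x => ?_⟩,
    fun x u v => ?_, fun x hx => ?_⟩
  · unfold shr
    rw [smul_inv_smul₀ hc, hl, inv_smul_smul₀ hc]
  · unfold shr
    rw [smul_inv_smul₀ hc, hr, inv_smul_smul₀ hc]
  · have h1 : HasFDerivAt (shr c F) (fderiv ℝ F (c • x)) x := by
      have h2 : HasFDerivAt (fun x : V n => c • x) (c • ContinuousLinearMap.id ℝ (V n)) x :=
        (hasFDerivAt_id x).const_smul c
      have h3 := ((hF.diff (c • x)).hasFDerivAt.comp x h2).const_smul c⁻¹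
      refine h3.congr_fderiv ?_
      ext1 w
      simp only [_root_.smul_apply, ContinuousLinearMap.comp_apply, ContinuousLinearMap.id_apply,
        map_smul]
      rw [inv_smul_smul₀ hc]
    rw [h1.fderiv]
    exact hF.symplectic _ u v
  · unfold shr
    rw [hF.support _ fun h => hx (hKL x h), inv_smul_smul₀ hc]

/-- a symplectomorphism is isotopic to its conjugates by homotheties -/
theorem isotopicIn_shr {K : Set (V n)} (hK : StarConvex ℝ 0 K) (hF : IsSympIn K F) {c : ℝ}
    (hc : 1 ≤ c) : IsotopicIn K F (shr c F) := by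
  have hc0 : 0 < c := lt_of_lt_of_le one_pos hc
  have hlog : 0 ≤ Real.log c := Real.log_nonneg hc
  refine ⟨fun t => shr (Real.exp (t * Real.log c)) F, ?_, ?_, ?_, fun t ht => ?_⟩
  · have h1 : ContDiff ℝ ∞ fun p : ℝ × V n => Real.exp (p.1 * Real.log c) :=
      Real.contDiff_exp.comp (contDiff_fst.mul contDiff_const)
    have h2 : ContDiff ℝ ∞ fun p : ℝ × V n => (Real.exp (p.1 * Real.log c))⁻¹ :=
      h1.inv fun p => (Real.exp_pos _).ne'
    exact h2.smul (hF.smooth.comp (h1.smul contDiff_snd))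
  · funext x
    simp [shr]
  · funext x
    simp only [one_mul]
    rw [Real.exp_log hc0]
  · refine shr_isSympIn hF (Real.exp_pos _).ne' fun x hx => ?_
    set a := Real.exp (t * Real.log c) with ha
    have ha1 : 1 ≤ a := by
      rw [ha]
      exact Real.one_le_exp (mul_nonneg ht.1 hlog)
    have ha0 : 0 < a := lt_of_lt_of_le one_pos ha1
    have h1 := hK hx (sub_nonneg.2 (inv_le_one_of_one_le₀ ha1)) (inv_nonneg.2 ha0.le)
      (sub_add_cancel 1 a⁻¹)
    rwa [smul_zero, zero_add, inv_smul_smul₀ ha0.ne'] at h1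

/-- isotopies in a large ball can be moved to a star-shaped neighbourhood of the origin -/
theorem isotopicIn_of_large {K : Set (V n)} (hK : StarConvex ℝ 0 K) (hK0 : K ∈ 𝓝 (0 : V n))
    {G : V n → V n} (hF : IsSympIn K F) (hG : IsSympIn K G) {R' : ℝ}
    (h : IsotopicIn (Metric.closedBall 0 R') F G) : IsotopicIn K F G := by
  obtain ⟨δ, hδ, hδK⟩ := Metric.mem_nhds_iff.1 hK0
  -- the factor
  obtain ⟨c, hc1, hc2⟩ : ∃ c : ℝ, 1 ≤ c ∧ |R'| < δ * c := by
    refine ⟨max 1 ((|R'| + 1) / δ), le_max_left _ _, ?_⟩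
    have h1 : (|R'| + 1) / δ ≤ max 1 ((|R'| + 1) / δ) := le_max_right _ _
    have h2 : |R'| + 1 = δ * ((|R'| + 1) / δ) := by field_simp
    have h3 := mul_le_mul_of_nonneg_left h1 hδ.le
    linarith
  have hc0 : 0 < c := lt_of_lt_of_le one_pos hc1
  refine (isotopicIn_shr hK hF hc1).trans (IsotopicIn.trans ?_ (isotopicIn_shr hK hG hc1).symm)
  obtain ⟨P, hP, hP0, hP1, hPs⟩ := h
  refine ⟨fun t => shr c (P t), ?_, by simp only [hP0], by simp only [hP1], fun t ht => ?_⟩
  · have h1 : ContDiff ℝ ∞ fun p : ℝ × V n => ((p.1, c • p.2) : ℝ × V n) :=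
      contDiff_fst.prodMk (contDiff_snd.const_smul c)
    exact (hP.comp h1).const_smul c⁻¹
  · refine shr_isSympIn (hPs t ht) hc0.ne' fun x hx => hδK ?_
    rw [mem_closedBall_zero_iff, norm_smul, Real.norm_eq_abs, abs_of_pos hc0] at hx
    rw [mem_ball_zero_iff]
    have h1 : c * ‖x‖ < δ * c := lt_of_le_of_lt (hx.trans (le_abs_self R')) hc2
    rw [mul_comm δ c] at h1
    exact lt_of_mul_lt_mul_left h1 hc0.le

end Pool.Agent.Helper597_mosct
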