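import Pool.Agent.Helper597_torsymp.Iso

/-!
# Families of local diffeomorphisms which are the identity outside a compact set
-/

set_option autoImplicit false
set_option linter.unusedSectionVars false

open Set Filter Topology
open scoped ContDiff

noncomputable section

namespace Pool.Agent.Helper597_mosct

open Pool.Agent.Helper597_torsymp

variable {ι : Type} [Fintype ι] [DecidableEq ι] {Φ : ℝ × (ι → ℝ) → (ι → ℝ)} {R : ℝ}

/-- the displacement is bounded -/
theorem disp_bound (hΦ : Continuous Φ) (hs : ∀ t x, R < ‖x‖ → Φ (t, x) = x) (a b : ℝ) :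
    ∃ C : ℝ, 0 ≤ C ∧ ∀ t ∈ Icc a b, ∀ x, ‖Φ (t, x) - x‖ ≤ C := by
  have hc : IsCompact (Icc a b ×ˢ Metric.closedBall (0 : ι → ℝ) R) :=
    isCompact_Icc.prod (isCompact_closedBall _ _)
  have hcont : Continuous fun p : ℝ × (ι → ℝ) => Φ p - p.2 := hΦ.sub continuous_snd
  obtain ⟨C, hC⟩ := hc.exists_bound_of_continuousOn hcont.continuousOn
  refine ⟨|C|, abs_nonneg C, fun t ht x => ?_⟩
  rcases le_or_gt ‖x‖ R with h | h
  · exact (hC (t, x) ⟨ht, by simpa using h⟩).trans (le_abs_self C)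
  · rw [hs t x h, sub_self, norm_zero]
    exact abs_nonneg C

/-- the set of parameters without a double point is open -/
theorem isOpen_single (h : IsFam Φ) (hs : ∀ t x, R < ‖x‖ → Φ (t, x) = x) :
    IsOpen {t : ℝ | Function.Injective fun x => Φ (t, x)} := by
  rw [isOpen_iff_mem_nhds]
  intro t ht
  obtain ⟨C, hC0, hC⟩ := disp_bound h.smooth.continuous hs (t - 1) (t + 1)
  set K : Set ((ι → ℝ) × (ι → ℝ)) := Metric.closedBall (0 : ι → ℝ) R ×ˢ
    Metric.closedBall (0 : ι → ℝ) (R + 2 * C) with hK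
  have hKc : IsCompact K := (isCompact_closedBall _ _).prod (isCompact_closedBall _ _)
  have h1 : ∀ᶠ s in 𝓝 t, ∀ q ∈ K, Φ (s, q.1) = Φ (s, q.2) → q.1 = q.2 := by
    refine hKc.eventually_forall_of_forall_eventually
      (P := fun (s : ℝ) (q : (ι → ℝ) × (ι → ℝ)) => Φ (s, q.1) = Φ (s, q.2) → q.1 = q.2) ?_
    rintro ⟨x, x'⟩ -
    by_cases hx : x = x'
    · subst hx
      obtain ⟨e, he'⟩ := h.exists_strict (t, x)
      have hinj := (he'.toOpenPartialHomeomorph (tot Φ)).injOn
      have hmem : (he'.toOpenPartialHomeomorph (tot Φ)).source ∈ 𝓝 (t, x) :=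
        (he'.toOpenPartialHomeomorph (tot Φ)).open_source.mem_nhds
          he'.mem_toOpenPartialHomeomorph_source
      have hc1 : ContinuousAt (fun z : ℝ × ((ι → ℝ) × (ι → ℝ)) => ((z.1, z.2.1) : ℝ × (ι → ℝ)))
          (t, (x, x)) := by fun_prop
      have hc2 : ContinuousAt (fun z : ℝ × ((ι → ℝ) × (ι → ℝ)) => ((z.1, z.2.2) : ℝ × (ι → ℝ)))
          (t, (x, x)) := by fun_prop
      filter_upwards [hc1.preimage_mem_nhds hmem, hc2.preimage_mem_nhds hmem] with z hz1 hz2 hz
      have := hinj hz1 hz2 (by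
        show tot Φ (z.1, z.2.1) = tot Φ (z.1, z.2.2)
        simp only [tot]
        rw [hz])
      exact congrArg Prod.snd this
    · have hne : Φ (t, x) ≠ Φ (t, x') := fun hh => hx (ht hh)
      have hc : ContinuousAt (fun z : ℝ × ((ι → ℝ) × (ι → ℝ)) =>
          (Φ (z.1, z.2.1), Φ (z.1, z.2.2))) (t, (x, x')) := by
        have hcont := h.smooth.continuous
        fun_prop
      have ho : IsOpen {q : (ι → ℝ) × (ι → ℝ) | q.1 ≠ q.2} :=
        isOpen_ne_fun continuous_fst continuous_snd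
      filter_upwards [hc.preimage_mem_nhds (ho.mem_nhds hne)] with z hz hz'
      exact absurd hz' hz
  have h2 : ∀ᶠ s in 𝓝 t, s ∈ Icc (t - 1) (t + 1) :=
    Icc_mem_nhds (by linarith) (by linarith)
  filter_upwards [h1, h2] with s hs1 hs2
  have key : ∀ x x' : ι → ℝ, ‖x‖ ≤ R → Φ (s, x) = Φ (s, x') → x = x' := by
    intro x x' hxR hx
    have e1 := hC s hs2 x
    have e2 := hC s hs2 x'
    have e3 : ‖x'‖ ≤ R + 2 * C := by
      have e4 : x' = x + (Φ (s, x) - x) - (Φ (s, x') - x') := by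
        rw [hx]
        abel
      have e5 := norm_sub_le (x + (Φ (s, x) - x)) (Φ (s, x') - x')
      have e6 := norm_add_le x (Φ (s, x) - x)
      rw [← e4] at e5
      linarith
    exact hs1 (x, x') ⟨by simpa using hxR, by simpa using e3⟩ hx
  intro x x' hx
  simp only at hx
  rcases le_or_gt ‖x‖ R with h | h
  · exact key x x' h hx
  · rcases le_or_gt ‖x'‖ R with h' | h'
    · exact (key x' x h' hx.symm).symm
    · rwa [hs s x h, hs s x' h'] at hx

/-- if one member is injective then all are -/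
theorem injective_of_one (h : IsFam Φ) (hs : ∀ t x, R < ‖x‖ → Φ (t, x) = x)
    {t₀ : ℝ} (h0 : Function.Injective fun x => Φ (t₀, x))
    (t : ℝ) : Function.Injective fun x => Φ (t, x) := by
  have hcl : IsClopen {t : ℝ | Function.Injective fun x => Φ (t, x)} := by
    refine ⟨?_, isOpen_single h hs⟩
    rw [← isOpen_compl_iff]
    exact h.isOpen_double
  rcases isClopen_iff.1 hcl with h1 | h1
  · have : t₀ ∈ {t : ℝ | Function.Injective fun x => Φ (t, x)} := h0
    rw [h1] at this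
    exact this.elim
  · have : t ∈ (univ : Set ℝ) := mem_univ t
    rw [← h1] at this
    exact this

theorem tot_injective (h : IsFam Φ) (hs : ∀ t x, R < ‖x‖ → Φ (t, x) = x)
    {t₀ : ℝ} (h0 : Function.Injective fun x => Φ (t₀, x)) :
    Function.Injective (tot Φ) := by
  rintro ⟨t, x⟩ ⟨t', x'⟩ hx
  simp only [tot, Prod.mk.injEq] at hx
  obtain ⟨rfl, hx⟩ := hx
  rw [injective_of_one h hs h0 t hx]

/-- each member is surjective -/
theorem tot_surjective (h : IsFam Φ) (hs : ∀ t x, R < ‖x‖ → Φ (t, x) = x) :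
    Function.Surjective (tot Φ) := by
  have hclosed : IsClosed (range (tot Φ)) := by
    rw [← isSeqClosed_iff_isClosed]
    intro u p hu hp
    choose w hw using hu
    have hp1 : Tendsto (fun j => (u j).1) atTop (𝓝 p.1) := (continuous_fst.tendsto p).comp hp
    have hp2 : Tendsto (fun j => (u j).2) atTop (𝓝 p.2) := (continuous_snd.tendsto p).comp hp
    obtain ⟨C, hC0, hC⟩ := disp_bound h.smooth.continuous hs (p.1 - 1) (p.1 + 1)
    have hw1 : ∀ j, (w j).1 = (u j).1 := fun j => by rw [← hw j]; rfl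
    have hw2 : ∀ j, Φ (w j) = (u j).2 := fun j => by rw [← hw j]; rfl
    have hev1 : ∀ᶠ j in atTop, (u j).1 ∈ Icc (p.1 - 1) (p.1 + 1) :=
      hp1.eventually (Icc_mem_nhds (by linarith) (by linarith))
    have hev2 : ∀ᶠ j in atTop, ‖(u j).2‖ ≤ ‖p.2‖ + 1 := by
      have := (continuous_norm.tendsto p.2).comp hp2
      filter_upwards [this.eventually (Iio_mem_nhds (show ‖p.2‖ < ‖p.2‖ + 1 by linarith))] with j hj
      exact hj.le
    have hbd : ∀ᶠ j in atTop, w j ∈ Icc (p.1 - 1) (p.1 + 1) ×ˢ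
        Metric.closedBall (0 : ι → ℝ) (‖p.2‖ + 1 + C) := by
      filter_upwards [hev1, hev2] with j hj1 hj2
      refine ⟨by rw [hw1]; exact hj1, ?_⟩
      rw [mem_closedBall_zero_iff]
      have h3 := hC (w j).1 (by rw [hw1]; exact hj1) (w j).2
      have h4 : Φ ((w j).1, (w j).2) = (u j).2 := hw2 j
      rw [h4] at h3
      have h5 : (w j).2 = (u j).2 - ((u j).2 - (w j).2) := by abel
      have h6 := norm_sub_le (u j).2 ((u j).2 - (w j).2)
      rw [← h5] at h6
      linarith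
    have hcp : IsCompact (Icc (p.1 - 1) (p.1 + 1) ×ˢ
        Metric.closedBall (0 : ι → ℝ) (‖p.2‖ + 1 + C)) :=
      isCompact_Icc.prod (isCompact_closedBall _ _)
    obtain ⟨q, -, φ, hφ, hq⟩ := hcp.tendsto_subseq' hbd.frequently
    have h8 : Tendsto (fun j => tot Φ (w (φ j))) atTop (𝓝 (tot Φ q)) :=
      (h.tot_smooth.continuous.tendsto q).comp hq
    have h9 : Tendsto (fun j => tot Φ (w (φ j))) atTop (𝓝 p) := by
      have : (fun j => tot Φ (w (φ j))) = fun j => u (φ j) := by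
        funext j
        exact hw (φ j)
      rw [this]
      exact hp.comp hφ.tendsto_atTop
    exact ⟨q, tendsto_nhds_unique h8 h9⟩
  rcases isClopen_iff.1 ⟨hclosed, h.isOpenMap.isOpen_range⟩ with h1 | h1
  · exact absurd (mem_range_self (f := tot Φ) (0, 0)) (by rw [h1]; exact fun h => h)
  · exact range_eq_univ.1 h1

/-- **Inverse families.** -/
theorem exists_inverse (h : IsFam Φ) (hs : ∀ t x, R < ‖x‖ → Φ (t, x) = x)
    {t₀ : ℝ} (h0 : Function.Injective fun x => Φ (t₀, x)) :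
    ∃ Ψ : ℝ × (ι → ℝ) → (ι → ℝ), ContDiff ℝ ∞ Ψ ∧ (∀ t x, Ψ (t, Φ (t, x)) = x) ∧
      ∀ t x, Φ (t, Ψ (t, x)) = x := by
  have hb : Function.Bijective (tot Φ) := ⟨tot_injective h hs h0, tot_surjective h hs⟩
  choose L hL using h.exists_equiv
  set e : (ℝ × (ι → ℝ)) ≃ₜ (ℝ × (ι → ℝ)) :=
    (Equiv.ofBijective (tot Φ) hb).toHomeomorphOfContinuousOpen h.tot_smooth.continuous
      h.isOpenMap with he'
  have hef : ∀ x, e x = tot Φ x := fun x => rfl
  have hsm : ContDiff ℝ ∞ e.symm := e.contDiff_symm (f₀' := L) (fun x => hL x) h.tot_smooth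
  have hfst : ∀ p, (e.symm p).1 = p.1 := fun p => by
    have h1 : tot Φ (e.symm p) = p := by rw [← hef]; exact e.apply_symm_apply p
    calc (e.symm p).1 = (tot Φ (e.symm p)).1 := rfl
      _ = p.1 := by rw [h1]
  refine ⟨fun p => (e.symm p).2, contDiff_snd.comp hsm, fun t x => ?_, fun t x => ?_⟩
  · have h1 : e.symm (t, Φ (t, x)) = (t, x) := by
      rw [e.symm_apply_eq]
      rfl
    show (e.symm (t, Φ (t, x))).2 = x
    rw [h1]
  · have h1 : tot Φ (e.symm (t, x)) = (t, x) := by rw [← hef]; exact e.apply_symm_apply _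
    have h2 : e.symm (t, x) = (t, (e.symm (t, x)).2) := Prod.ext (hfst (t, x)) rfl
    rw [h2] at h1
    exact congrArg Prod.snd h1

/-! ### Compactly supported symplectomorphisms -/

variable {n : ℕ}

/-- `F` is a symplectomorphism of `ℝ^{2n}` which is the identity outside `K` -/
structure IsSympIn (K : Set (V n)) (F : V n → V n) : Prop where
  smooth : ContDiff ℝ ∞ F
  inverse : ∃ H : V n → V n, ContDiff ℝ ∞ H ∧ Function.LeftInverse H F ∧ Function.RightInverse H F
  symplectic : ∀ x u v, om (fderiv ℝ F x u) (fderiv ℝ F x v) = om u v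
  support : ∀ x, x ∉ K → F x = x

/-- there is a smooth family of symplectomorphisms `G t`, `0 ≤ t ≤ 1`, from `F₀` to `F₁`, which are
the identity outside `K` -/
def IsotopicIn (K : Set (V n)) (F₀ F₁ : V n → V n) : Prop :=
  ∃ G : ℝ → V n → V n, ContDiff ℝ ∞ (fun p : ℝ × V n => G p.1 p.2) ∧ G 0 = F₀ ∧ G 1 = F₁ ∧
    ∀ t ∈ Icc (0 : ℝ) 1, IsSympIn K (G t)

/-- families of symplectic maps which are the identity outside a ball -/
theorem isSympIn_of_family {G : ℝ → V n → V n}
    (hG : ContDiff ℝ ∞ fun p : ℝ × V n => G p.1 p.2)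
    (hR : ∀ t x, R < ‖x‖ → G t x = x)
    (hs : ∀ t x u v, om (fderiv ℝ (G t) x u) (fderiv ℝ (G t) x v) = om u v)
    {t₀ : ℝ} (h0 : Function.Injective (G t₀)) (t : ℝ) :
    IsSympIn (Metric.closedBall 0 R) (G t) := by
  have hfam : IsFam (fun p : ℝ × V n => G p.1 p.2) := by
    refine ⟨hG, fun t x v hv => ?_⟩
    refine om_nondeg v fun w => ?_
    rw [← hs t x v w]
    have : fderiv ℝ (G t) x v = 0 := hv
    rw [this, om_zero_left]
  obtain ⟨Ψ, hΨ, h1, h2⟩ := exists_inverse hfam (R := R) (fun t x hx => hR t x hx)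
    (t₀ := t₀) h0
  have hslice : ∀ t : ℝ, ContDiff ℝ ∞ fun x : V n => ((t, x) : ℝ × V n) := fun t =>
    contDiff_const.prodMk contDiff_id
  exact ⟨hG.comp (hslice t), ⟨fun x => Ψ (t, x), hΨ.comp (hslice t), fun x => h1 t x,
    fun x => h2 t x⟩, hs t, fun x hx => hR t x (by simpa using hx)⟩

end Pool.Agent.Helper597_mosct
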