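import Pool.Agent.Helper597_mosct.FamC

/-!
# Compactly supported symplectic isotopy is an equivalence relation
-/

set_option autoImplicit false
set_option linter.unusedSectionVars false

open Set Filter Topology
open scoped ContDiff

noncomputable section

namespace Pool.Agent.Helper597_mosct

open Pool.Agent.Helper597_torsymp

variable {n : ℕ} {K : Set (V n)}

theorem IsSympIn.mono {K L : Set (V n)} (h : K ⊆ L) {F : V n → V n} (hF : IsSympIn K F) :
    IsSympIn L F :=
  ⟨hF.smooth, hF.inverse, hF.symplectic, fun x hx => hF.support x fun hK => hx (h hK)⟩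

theorem IsotopicIn.mono {K L : Set (V n)} (h : K ⊆ L) {F₀ F₁ : V n → V n}
    (hF : IsotopicIn K F₀ F₁) : IsotopicIn L F₀ F₁ := by
  obtain ⟨G, hG, h0, h1, hs⟩ := hF
  exact ⟨G, hG, h0, h1, fun t ht => (hs t ht).mono h⟩

theorem IsSympIn.injective {F : V n → V n} (h : IsSympIn K F) : Function.Injective F := by
  obtain ⟨H, -, hl, -⟩ := h.inverse
  exact hl.injective

theorem IsSympIn.diff {F : V n → V n} (h : IsSympIn K F) : Differentiable ℝ F :=
  h.smooth.differentiable (by simp)

theorem IsotopicIn.refl {F : V n → V n} (h : IsSympIn K F) :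
    IsotopicIn K F F :=
  ⟨fun _ => F, h.smooth.comp contDiff_snd, rfl, rfl, fun _ _ => h⟩

theorem IsotopicIn.symm {F₀ F₁ : V n → V n} (h : IsotopicIn K F₀ F₁) :
    IsotopicIn K F₁ F₀ := by
  obtain ⟨G, hG, h0, h1, hs⟩ := h
  refine ⟨fun t => G (1 - t), ?_, by simpa using h1, by simpa using h0, fun t ht => hs _ ⟨by
    linarith [ht.2], by linarith [ht.1]⟩⟩
  have : ContDiff ℝ ∞ fun p : ℝ × V n => ((1 - p.1, p.2) : ℝ × V n) :=
    (contDiff_const.sub contDiff_fst).prodMk contDiff_snd
  exact hG.comp this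

theorem IsotopicIn.left {F₀ F₁ : V n → V n} (h : IsotopicIn K F₀ F₁) :
    IsSympIn K F₀ := by
  obtain ⟨G, hG, h0, h1, hs⟩ := h
  rw [← h0]
  exact hs 0 ⟨le_refl _, zero_le_one⟩

theorem IsotopicIn.right {F₀ F₁ : V n → V n} (h : IsotopicIn K F₀ F₁) :
    IsSympIn K F₁ := h.symm.left

/-- an isotopy, reparametrised to be constant near the ends and defined for all times -/
theorem IsotopicIn.exists_flat {F₀ F₁ : V n → V n}
    (h : IsotopicIn K F₀ F₁) :
    ∃ G : ℝ → V n → V n, ContDiff ℝ ∞ (fun p : ℝ × V n => G p.1 p.2) ∧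
      (∀ t ≤ 0, G t = F₀) ∧ (∀ t, 1 ≤ t → G t = F₁) ∧ ∀ t, IsSympIn K (G t) := by
  obtain ⟨G, hG, h0, h1, hs⟩ := h
  refine ⟨fun t => G (Real.smoothTransition t), ?_, fun t ht => ?_, fun t ht => ?_, fun t => ?_⟩
  · have : ContDiff ℝ ∞ fun p : ℝ × V n => ((Real.smoothTransition p.1, p.2) : ℝ × V n) :=
      (Real.smoothTransition.contDiff.comp contDiff_fst).prodMk contDiff_snd
    exact hG.comp this
  · show G (Real.smoothTransition t) = F₀
    rw [Real.smoothTransition.zero_of_nonpos ht, h0]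
  · show G (Real.smoothTransition t) = F₁
    rw [Real.smoothTransition.one_of_one_le ht, h1]
  · exact hs _ ⟨Real.smoothTransition.nonneg t, Real.smoothTransition.le_one t⟩

theorem IsotopicIn.trans {F₀ F₁ F₂ : V n → V n}
    (h : IsotopicIn K F₀ F₁) (h' : IsotopicIn K F₁ F₂) :
    IsotopicIn K F₀ F₂ := by
  obtain ⟨G, hG, hG0, hG1, hGs⟩ := h.exists_flat
  obtain ⟨G', hG', hG'0, hG'1, hG's⟩ := h'.exists_flat
  refine ⟨fun t => if t < 1 / 2 then G (3 * t) else G' (3 * t - 2), ?_, ?_, ?_, ?_⟩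
  · rw [contDiff_iff_contDiffAt]
    rintro ⟨t, x⟩
    have hc1 : ContDiff ℝ ∞ fun p : ℝ × V n => G (3 * p.1) p.2 := by
      have : ContDiff ℝ ∞ fun p : ℝ × V n => ((3 * p.1, p.2) : ℝ × V n) :=
        (contDiff_const.mul contDiff_fst).prodMk contDiff_snd
      exact hG.comp this
    have hc2 : ContDiff ℝ ∞ fun p : ℝ × V n => G' (3 * p.1 - 2) p.2 := by
      have : ContDiff ℝ ∞ fun p : ℝ × V n => ((3 * p.1 - 2, p.2) : ℝ × V n) :=
        ((contDiff_const.mul contDiff_fst).sub contDiff_const).prodMk contDiff_snd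
      exact hG'.comp this
    rcases lt_or_ge t (2 / 3) with ht | ht
    · refine hc1.contDiffAt.congr_of_eventuallyEq ?_
      have hev : ∀ᶠ p : ℝ × V n in 𝓝 (t, x), p.1 < 2 / 3 :=
        continuous_fst.continuousAt.eventually (Iio_mem_nhds ht)
      filter_upwards [hev] with p hp
      by_cases hp2 : p.1 < 1 / 2
      · simp only [hp2, if_true]
      · simp only [hp2, if_false]
        rw [hG1 (3 * p.1) (by linarith), hG'0 (3 * p.1 - 2) (by linarith)]
    · refine hc2.contDiffAt.congr_of_eventuallyEq ?_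
      have hev : ∀ᶠ p : ℝ × V n in 𝓝 (t, x), 1 / 2 < p.1 :=
        continuous_fst.continuousAt.eventually (Ioi_mem_nhds (by simp only; linarith))
      filter_upwards [hev] with p hp
      have hp2 : ¬ p.1 < 1 / 2 := not_lt.2 hp.le
      simp only [hp2, if_false]
  · simp only [show (0 : ℝ) < 1 / 2 by norm_num, if_true]
    exact hG0 _ (by norm_num)
  · simp only [show ¬ (1 : ℝ) < 1 / 2 by norm_num, if_false]
    exact hG'1 _ (by norm_num)
  · intro t _
    by_cases ht : t < 1 / 2
    · simp only [ht, if_true]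
      exact hGs _
    · simp only [ht, if_false]
      exact hG's _

end Pool.Agent.Helper597_mosct
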