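import Pool.Agent.Helper597_mosct.IsoC
import Pool.Agent.Helper597_mos.Moser2

/-!
# Moser's theorem for compactly supported families of maps of `ℝ^{2n}`
-/

set_option autoImplicit false
set_option linter.unusedSectionVars false

open Set Filter Topology
open scoped ContDiff NNReal

noncomputable section

namespace Pool.Agent.Helper597_mosct

open Pool.Agent.Helper597_torsymp Pool.Agent.Helper597_mos Pool.Agent.GR.Flow

variable {n : ℕ} {Φ : ℝ × V n → V n} {R : ℝ}

section lip

variable {G : Type} [NormedAddCommGroup G] [NormedSpace ℝ G]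

theorem bdd_of_supp {f : EE n → G} (hf : Continuous f)
    (hs : ∀ s r x, R < ‖x‖ → f (s, r, x) = 0) :
    ∃ C : ℝ≥0, ∀ s ∈ Icc (0 : ℝ) 1, ∀ r ∈ Icc (0 : ℝ) 1, ∀ x, ‖f (s, r, x)‖ ≤ C := by
  have hc : IsCompact (Icc (0 : ℝ) 1 ×ˢ (Icc (0 : ℝ) 1 ×ˢ Metric.closedBall (0 : V n) R)) :=
    isCompact_Icc.prod (isCompact_Icc.prod (isCompact_closedBall _ _))
  obtain ⟨C, hC⟩ := hc.exists_bound_of_continuousOn hf.continuousOn
  refine ⟨C.toNNReal, fun s hs' r hr x => ?_⟩
  rcases le_or_gt ‖x‖ R with h | h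
  · exact (hC (s, r, x) ⟨hs', hr, by simpa using h⟩).trans (Real.le_coe_toNNReal C)
  · rw [hs s r x h, norm_zero]
    exact NNReal.coe_nonneg _

theorem lip_of_supp {f : EE n → G} (hf : ContDiff ℝ ∞ f)
    (hs : ∀ s r x, R < ‖x‖ → f (s, r, x) = 0)
    (hcl : ∀ s r x, f (s, r, x) = f (cl s, cl r, x)) :
    (∃ M : ℝ≥0, ∀ z, ‖f z‖ ≤ M) ∧ ∃ K : ℝ≥0, LipschitzWith K f := by
  constructor
  · obtain ⟨M, hM⟩ := bdd_of_supp hf.continuous hs
    refine ⟨M, fun z => ?_⟩
    obtain ⟨s, r, x⟩ := z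
    rw [hcl]
    exact hM _ (cl_mem s) _ (cl_mem r) x
  · have hd : Differentiable ℝ f := hf.differentiable (by simp)
    have hfd : Continuous (fderiv ℝ f) := hf.continuous_fderiv (by simp)
    have hpd : ∀ s r x, R < ‖x‖ → fderiv ℝ f (s, r, x) = 0 := by
      intro s r x hx
      have ho : IsOpen {z : EE n | R < ‖z.2.2‖} :=
        isOpen_lt continuous_const (continuous_norm.comp (continuous_snd.comp continuous_snd))
      have h1 : f =ᶠ[𝓝 (s, r, x)] fun _ => 0 := by
        filter_upwards [ho.mem_nhds (show (s, r, x) ∈ {z : EE n | R < ‖z.2.2‖} from hx)] with z hz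
        exact hs z.1 z.2.1 z.2.2 hz
      rw [h1.fderiv_eq]
      exact fderiv_const_apply 0
    obtain ⟨K, hK⟩ := bdd_of_supp hfd hpd
    have hon : LipschitzOnWith K f (Icc (0 : ℝ) 1 ×ˢ (Icc (0 : ℝ) 1 ×ˢ (univ : Set (V n)))) := by
      refine Convex.lipschitzOnWith_of_nnnorm_fderiv_le (fun z _ => hd z) ?_
        ((convex_Icc 0 1).prod ((convex_Icc 0 1).prod convex_univ))
      rintro ⟨s, r, x⟩ ⟨hs, hr, -⟩
      exact hK s hs r hr x
    refine ⟨K, ?_⟩
    have hθ : LipschitzWith 1 fun z : EE n => ((cl z.1, cl z.2.1, z.2.2) : EE n) := by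
      have h1 : LipschitzWith 1 fun z : EE n => cl z.1 := by
        have := cl_lip.comp (LipschitzWith.prod_fst (α := ℝ) (β := ℝ × V n))
        rwa [mul_one] at this
      have h2 : LipschitzWith 1 fun z : EE n => cl z.2.1 := by
        have := cl_lip.comp ((LipschitzWith.prod_fst (α := ℝ) (β := V n)).comp
          (LipschitzWith.prod_snd (α := ℝ) (β := ℝ × V n)))
        rwa [mul_one, mul_one] at this
      have h3 : LipschitzWith 1 fun z : EE n => z.2.2 := by
        have := (LipschitzWith.prod_snd (α := ℝ) (β := V n)).comp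
          (LipschitzWith.prod_snd (α := ℝ) (β := ℝ × V n))
        rwa [mul_one] at this
      simpa using h1.prodMk (h2.prodMk h3)
    have h4 : LipschitzWith (K * 1) fun z : EE n => f (cl z.1, cl z.2.1, z.2.2) := by
      rw [← lipschitzOnWith_univ] at hθ ⊢
      exact hon.comp hθ fun z _ => ⟨cl_mem _, cl_mem _, mem_univ _⟩
    have h5 : (fun z : EE n => f (cl z.1, cl z.2.1, z.2.2)) = f := by
      funext z
      obtain ⟨s, r, x⟩ := z
      exact (hcl s r x).symm
    rwa [h5, mul_one] at h4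

end lip

/-- the standing assumptions on a compactly supported family -/
structure MC (R : ℝ) (Φ : ℝ × V n → V n) : Prop extends MF0 1 Φ where
  supp : ∀ s x, R < ‖x‖ → Φ (s, x) = x

theorem Xf_supp (h : MC R Φ) (s r : ℝ) (x : V n) (hx : R < ‖x‖) : Xf 1 Φ (s, r, x) = 0 := by
  have h1 : lf 1 Φ (s, x) = 0 := by
    unfold lf
    simp only
    rw [h.supp s x hx, lin_one, sub_self, map_zero, map_zero, smul_zero, add_zero]
  unfold Xf
  simp only
  rw [h1, map_zero, neg_zero]

theorem YV_supp (h : MC R Φ) (s r : ℝ) (x : V n) (hx : R < ‖x‖) : YV 1 Φ (s, r, x) = 0 := by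
  unfold YV
  simp only
  rw [Xf_supp h _ _ _ hx, smul_zero]

theorem exists_flowC (h : MC R Φ) : ∃ (K : ℝ≥0) (g : ℝ → EE n → EE n),
    LipschitzWith K (Yf 1 Φ) ∧ IsFlowOf (Yf 1 Φ) g ∧
    ContDiff ℝ ∞ (fun p : ℝ × EE n => g p.1 p.2) ∧ ContDiff ℝ ∞ (Yf 1 Φ) := by
  obtain ⟨hb, hl⟩ := lip_of_supp (YV_contDiff h.toMF0) (YV_supp h) (YV_clamp h.toMF0)
  exact exists_flow0 h.toMF0 hb hl

theorem psi_supp (h : MC R Φ) {K : ℝ≥0} (hK : LipschitzWith K (Yf 1 Φ)) {g : ℝ → EE n → EE n}
    (hg : IsFlowOf (Yf 1 Φ) g) (s t : ℝ) (x : V n) (hx : R < ‖x‖) : psi g s t x = x := by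
  have h1 : (fun t => g t (s, 0, x)) = fun t => ((s, t, x) : EE n) := by
    refine ODE_solution_unique_univ (v := fun _ => Yf 1 Φ) (s := fun _ => univ) (K := K) (t₀ := 0)
      (fun t => hK.lipschitzOnWith) (fun t => ⟨hg.deriv _ t, trivial⟩)
      (fun t => ⟨?_, trivial⟩) ?_
    · have e1 : Yf 1 Φ (s, t, x) = (0, 1, 0) := by
        unfold Yf
        rw [YV_supp h _ _ _ hx]
      rw [e1]
      exact (hasDerivAt_const t s).prodMk ((hasDerivAt_id t).prodMk (hasDerivAt_const t x))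
    · rw [hg.zero]
  exact congrArg (fun z : EE n => z.2.2) (congrFun h1 t)

/-- **Moser's theorem** for compactly supported families (normal form) -/
theorem isotopic_of_MC (h : MC R Φ)
    (h0 : IsSympIn (Metric.closedBall 0 R) fun x => Φ (0, x))
    (h1 : IsSympIn (Metric.closedBall 0 R) fun x => Φ (1, x)) :
    IsotopicIn (Metric.closedBall 0 R) (fun x => Φ (0, x)) (fun x => Φ (1, x)) := by
  obtain ⟨K, g, hK, hg, hgs, hY⟩ := exists_flowC h
  have hd : Differentiable ℝ Φ := h.smooth.differentiable (by simp)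
  have hps := psi_smooth hgs
  -- the middle piece
  have hmid : IsotopicIn (Metric.closedBall 0 R) (fun x => Φ (0, psi g 0 1 x))
      (fun x => Φ (1, psi g 1 1 x)) := by
    have hG : ContDiff ℝ ∞ fun p : ℝ × V n => Φ (p.1, psi g p.1 1 p.2) := by
      have e1 : ContDiff ℝ ∞ fun p : ℝ × V n => ((p.1, 1, p.2) : ℝ × ℝ × V n) :=
        contDiff_fst.prodMk (contDiff_const.prodMk contDiff_snd)
      exact h.smooth.comp (contDiff_fst.prodMk (hps.comp e1))
    refine ⟨fun s x => Φ (s, psi g s 1 x), hG, rfl, rfl, fun s _ => ?_⟩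
    refine isSympIn_of_family (G := fun s x => Φ (s, psi g s 1 x)) hG ?_ ?_ (t₀ := 0) ?_ s
    · intro s x hx
      rw [psi_supp h hK hg _ _ _ hx, h.supp _ _ hx]
    · intro s x u v
      have e1 : HasFDerivAt (fun x => Φ (s, psi g s 1 x))
          ((dx Φ (s, psi g s 1 x)).comp (fderiv ℝ (psi g s 1) x)) x :=
        (hasFDerivAt_slice hd s (psi g s 1 x)).comp x (psi_slice_diff hgs s 1 x).hasFDerivAt
      rw [e1.fderiv]
      have e2 := moser_identity h.toMF0 hK hg hgs hY s 1 x u v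
      rw [Real.smoothTransition.one, sub_self, zero_mul, zero_add, one_mul] at e2
      exact e2
    · exact h0.injective.comp (psi_injective hK hg 0 1)
  -- the ends
  have hend : ∀ s, IsSympIn (Metric.closedBall 0 R) (fun x => Φ (s, x)) →
      IsotopicIn (Metric.closedBall 0 R) (fun x => Φ (s, x)) (fun x => Φ (s, psi g s 1 x)) := by
    intro s hs
    have hG : ContDiff ℝ ∞ fun p : ℝ × V n => Φ (s, psi g s p.1 p.2) := by
      have e1 : ContDiff ℝ ∞ fun p : ℝ × V n => ((s, p.1, p.2) : ℝ × ℝ × V n) :=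
        contDiff_const.prodMk (contDiff_fst.prodMk contDiff_snd)
      exact h.smooth.comp (contDiff_const.prodMk (hps.comp e1))
    have hs' : ∀ y u v, om (dx Φ (s, y) u) (dx Φ (s, y) v) = om u v := by
      intro y u v
      have := hs.symplectic y u v
      rwa [(hasFDerivAt_slice hd s y).fderiv] at this
    refine ⟨fun r x => Φ (s, psi g s r x), hG, ?_, rfl, fun r _ => ?_⟩
    · funext x
      simp only [psi_zero hg]
    refine isSympIn_of_family (G := fun r x => Φ (s, psi g s r x)) hG ?_ ?_ (t₀ := 0) ?_ r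
    · intro r x hx
      rw [psi_supp h hK hg _ _ _ hx, h.supp _ _ hx]
    · intro r x u v
      have e1 : HasFDerivAt (fun x => Φ (s, psi g s r x))
          ((dx Φ (s, psi g s r x)).comp (fderiv ℝ (psi g s r) x)) x :=
        (hasFDerivAt_slice hd s (psi g s r x)).comp x (psi_slice_diff hgs s r x).hasFDerivAt
      rw [e1.fderiv]
      have e2 := moser_identity h.toMF0 hK hg hgs hY s r x u v
      rw [ContinuousLinearMap.comp_apply, ContinuousLinearMap.comp_apply]
      rw [hs'] at e2 ⊢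
      linarith
    · exact hs.injective.comp (psi_injective hK hg s 0)
  exact (hend 0 h0).trans (hmid.trans (hend 1 h1).symm)

/-- **Moser's theorem** for compactly supported families -/
theorem isotopicIn_of_nondegenerate (hΦ : ContDiff ℝ ∞ Φ) (hsupp : ∀ s ∈ Icc (0 : ℝ) 1, ∀ x,
      R < ‖x‖ → Φ (s, x) = x)
    (hnd : ∀ s ∈ Icc (0 : ℝ) 1, ∀ ρ ∈ Icc (0 : ℝ) 1, ∀ x, Nd Φ (s, ρ, x))
    (h0 : IsSympIn (Metric.closedBall 0 R) fun x => Φ (0, x))
    (h1 : IsSympIn (Metric.closedBall 0 R) fun x => Φ (1, x)) :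
    IsotopicIn (Metric.closedBall 0 R) (fun x => Φ (0, x)) (fun x => Φ (1, x)) := by
  set Ψ : ℝ × V n → V n := fun p => Φ (Real.smoothTransition p.1, p.2) with hΨ
  have hd : Differentiable ℝ Φ := hΦ.differentiable (by simp)
  have hΨs : ContDiff ℝ ∞ Ψ :=
    hΦ.comp ((contDiff_st.comp contDiff_fst).prodMk contDiff_snd)
  have hdΨ : Differentiable ℝ Ψ := hΨs.differentiable (by simp)
  have hdx : ∀ s x, dx Ψ (s, x) = dx Φ (Real.smoothTransition s, x) := fun s x => by
    rw [← (hasFDerivAt_slice hd _ x).fderiv, ← (hasFDerivAt_slice hdΨ s x).fderiv]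
  have hMC : MC R Ψ := by
    refine ⟨⟨hΨs, fun s x => ?_, fun s ρ hρ x => ?_, fun u v => ?_⟩, fun s x hx => ?_⟩
    · simp only [hΨ]
      rw [st_cl]
    · intro u hu
      refine hnd _ (st_mem s) ρ hρ x u fun v => ?_
      have := hu v
      simp only [hdx] at this
      exact this
    · rw [lin_one, lin_one]
    · exact hsupp _ (st_mem s) x hx
  have e0 : (fun x => Ψ (0, x)) = fun x => Φ (0, x) := by
    funext x
    simp only [hΨ, Real.smoothTransition.zero]
  have e1 : (fun x => Ψ (1, x)) = fun x => Φ (1, x) := by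
    funext x
    simp only [hΨ, Real.smoothTransition.one]
  have := isotopic_of_MC hMC (e0 ▸ h0) (e1 ▸ h1)
  rwa [e0, e1] at this

end Pool.Agent.Helper597_mosct
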