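import Pool.Agent.Helper597_mosct.AvgC

/-!
# Compactly supported symplectomorphisms with small mean oscillation
-/

set_option autoImplicit false
set_option linter.unusedSectionVars false

open Set Filter Topology MeasureTheory
open scoped ContDiff NNReal

noncomputable section

namespace Pool.Agent.Helper597_mosct

open Pool.Agent.Helper597_torsymp Pool.Agent.Helper597_mos

variable {n : ℕ} {R : ℝ}

theorem om_ge (u v : V n) : -((ip u u + ip v v) / 2) ≤ om u v := by
  have h := om_le v u
  rw [om_swap v u] at h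
  linarith

theorem om_ge' (u v : V n) : -(2 * ip u u + ip v v / 8) ≤ om u v := by
  have h := om_ge ((2 : ℝ) • u) ((1 / 2 : ℝ) • v)
  rw [om_smul_left, om_smul_right, ip_smul_left, ip_smul_right, ip_smul_left, ip_smul_right] at h
  linarith

theorem frob_smul (c : ℝ) (L : V n →L[ℝ] V n) : frob (c • L) = c ^ 2 * frob L := by
  unfold frob
  rw [Finset.mul_sum]
  refine Finset.sum_congr rfl fun β _ => ?_
  rw [_root_.smul_apply, ip_smul_left, ip_smul_right]
  ring

theorem frob_nonneg (L : V n →L[ℝ] V n) : 0 ≤ frob L :=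
  Finset.sum_nonneg fun _ _ => ip_self_nonneg _

/-- maps near the identity -/
theorem good_near_one {N : V n →L[ℝ] V n} (hN : frob (N - ContinuousLinearMap.id ℝ (V n)) ≤ 1 / 4) :
    Good N := by
  refine good_of_pos fun u hu => ?_
  have hpos := ip_self_pos hu
  set E := N - ContinuousLinearMap.id ℝ (V n) with hE
  have hN' : ∀ v, N v = v + E v := fun v => by
    rw [hE, _root_.sub_apply, ContinuousLinearMap.id_apply]
    abel
  have h1 := frob_ge E u
  have h2 := mul_le_mul_of_nonneg_right hN hpos.le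
  rw [hN', hN', om_add_left, om_add_right, om_add_right, om_Jv_right]
  have h3 := om_ge' (E u) (Jv u)
  have h4 : -(2 * ip (E (Jv u)) (E (Jv u)) + ip u u / 8) ≤ om u (E (Jv u)) := by
    have h := om_ge ((1 / 2 : ℝ) • u) ((2 : ℝ) • E (Jv u))
    rw [om_smul_left, om_smul_right, ip_smul_left, ip_smul_right, ip_smul_left,
      ip_smul_right] at h
    linarith
  have h5 := om_ge (E u) (E (Jv u))
  rw [ip_Jv_Jv] at h3
  linarith

theorem isSympIn_id (K : Set (V n)) : IsSympIn K (id : V n → V n) :=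
  ⟨contDiff_id, ⟨id, contDiff_id, fun _ => rfl, fun _ => rfl⟩, fun x u v => by
    rw [fderiv_id]
    rfl, fun _ _ => rfl⟩

theorem mean_id (T : V n →L[ℝ] V n) (x : V n) :
    mean (id : V n → V n) T x = ContinuousLinearMap.id ℝ (V n) := by
  unfold mean
  simp only [fderiv_id]
  exact integral_cube_const _

theorem exists_ball_of_bounded {K : Set (V n)} (hK : Bornology.IsBounded K) :
    ∃ R, K ⊆ Metric.closedBall 0 R := hK.subset_closedBall 0

/-- **General criterion.** -/
theorem isotopicIn_of_means {K : Set (V n)} (hKb : Bornology.IsBounded K)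
    (hKs : StarConvex ℝ 0 K) (hK0 : K ∈ 𝓝 (0 : V n)) {F G : V n → V n} (hF : IsSympIn K F)
    (hG : IsSympIn K G) {T : ℝ → V n →L[ℝ] V n}
    (hT : ContDiff ℝ ∞ T) (h0 : T 0 = 0)
    (hgF : ∀ s ∈ Icc (0 : ℝ) 1, ∀ x, Good (mean F (T s) x))
    (hgG : ∀ s ∈ Icc (0 : ℝ) 1, ∀ x, Good (mean G (T s) x))
    (hFG : ∀ t ∈ Icc (0 : ℝ) 1, ∀ x, Good ((1 - t) • mean F (T 1) x + t • mean G (T 1) x)) :
    IsotopicIn K F G := by
  obtain ⟨R, hR⟩ := exists_ball_of_bounded hKb
  obtain ⟨R', h⟩ := isotopicIn_of_means_pair (hF.mono hR) (hG.mono hR) hT h0 hgF hgG hFG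
  exact isotopicIn_of_large hKs hK0 hF hG h

/-- **Small mean oscillation on all cubes.** -/
theorem isotopicIn_of_osc {K : Set (V n)} (hKb : Bornology.IsBounded K)
    (hKs : StarConvex ℝ 0 K) (hK0 : K ∈ 𝓝 (0 : V n)) {F : V n → V n} (hF : IsSympIn K F)
    (ho : ∀ x, ∀ s, 0 < s →
      ∫ y in Icc (0 : V n) 1, frob (fderiv ℝ F (x + sc s y) - mean F (sc s) x) < 2) :
    IsotopicIn K id F := by
  obtain ⟨R, hR⟩ := exists_ball_of_bounded hKb
  -- the displacement is bounded
  obtain ⟨δ, hδ0, hδ⟩ : ∃ δ : ℝ, 0 ≤ δ ∧ ∀ x, ip (F x - id x) (F x - id x) ≤ δ := by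
    have hc : Continuous fun x => ip (F x - id x) (F x - id x) := by
      have : Continuous fun x => F x - id x := hF.smooth.continuous.sub continuous_id
      exact continuous_ip this this
    obtain ⟨δ, hδ⟩ := (isCompact_closedBall (0 : V n) R).exists_bound_of_continuousOn
      hc.continuousOn
    refine ⟨|δ|, abs_nonneg δ, fun x => ?_⟩
    by_cases hx : x ∈ Metric.closedBall (0 : V n) R
    · exact (le_abs_self _).trans ((hδ x hx).trans (le_abs_self δ))
    · have h1 : F x = x := hF.support x fun h => hx (hR h)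
      rw [h1]
      have : ip (x - id x) (x - id x) = 0 := by simp [ip]
      rw [this]
      exact abs_nonneg δ
  -- the scale
  set S : ℝ := 1 + 32 * n * δ with hS
  have hS1 : 1 ≤ S := by
    have : 0 ≤ 32 * n * δ := by positivity
    linarith
  have hS0 : 0 < S := lt_of_lt_of_le one_pos hS1
  have hnear : ∀ x, frob (mean F (sc S) x - ContinuousLinearMap.id ℝ (V n)) ≤ 1 / 4 := by
    intro x
    have h1 := frob_mean_sub hF.smooth contDiff_id hδ hS0 x
    rw [mean_id] at h1
    refine h1.trans ?_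
    rw [mul_div_assoc', div_le_iff₀ (by positivity)]
    have h2 : S ≤ S ^ 2 := by nlinarith
    have h3 : 32 * n * δ ≤ S := by rw [hS]; linarith
    linarith
  refine (isotopicIn_of_means hKb hKs hK0 hF (isSympIn_id K) (T := fun s => sc (S * s))
    (sc_smooth S) (by simp only [mul_zero]; exact sc_zero) ?_ ?_ ?_).symm
  · refine good_scales hF.smooth hF.symplectic (S := ContinuousLinearMap.id ℝ (V n))
      (fun u v => rfl) hS0 fun x s hs => ?_
    have h1 := ho x s hs.1
    simp only [ContinuousLinearMap.id_comp]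
    exact h1
  · intro s _ x
    rw [mean_id]
    exact good_of_symp fun u v => rfl
  · intro t ht x
    simp only [mul_one]
    rw [mean_id]
    refine good_near_one ?_
    have h1 : (1 - t) • mean F (sc S) x + t • ContinuousLinearMap.id ℝ (V n) -
        ContinuousLinearMap.id ℝ (V n) =
        (1 - t) • (mean F (sc S) x - ContinuousLinearMap.id ℝ (V n)) := by
      ext1 v
      simp only [_root_.add_apply, _root_.sub_apply, _root_.smul_apply,
        ContinuousLinearMap.id_apply]
      rw [smul_sub, sub_smul 1 t v, one_smul]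
      abel
    rw [h1, frob_smul]
    have h2 : (1 - t) ^ 2 ≤ 1 := by nlinarith [ht.1, ht.2]
    calc (1 - t) ^ 2 * frob (mean F (sc S) x - ContinuousLinearMap.id ℝ (V n))
        ≤ 1 * (1 / 4) := mul_le_mul h2 (hnear x) (frob_nonneg _) zero_le_one
      _ = 1 / 4 := one_mul _

/-- **Pinched compactly supported symplectomorphisms.** -/
theorem isotopicIn_of_pinched {K : Set (V n)} (hKb : Bornology.IsBounded K)
    (hKs : StarConvex ℝ 0 K) (hK0 : K ∈ 𝓝 (0 : V n)) {F : V n → V n} (hF : IsSympIn K F)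
    {c : ℝ} (hc0 : 0 < c) (hL : ∀ x y, ip (F x - F y) (F x - F y) ≤ c * ip (x - y) (x - y))
    (hp : (n : ℝ) * (n + 1) * (c - c⁻¹) < 3) : IsotopicIn K id F :=
  isotopicIn_of_osc hKb hKs hK0 hF fun x _ hs =>
    osc_of_pinched hF.smooth hF.symplectic hF.inverse hc0 hL hp hs x

end Pool.Agent.Helper597_mosct
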